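import Pool.Agent.Y924.EL.Stm

/-! # Meaning of the combinators -/

set_option autoImplicit false

namespace Pool.Agent.Y924.EL

open Function

section

variable {K : Type} [CommRing K] (O : Set K) (h : Fin 5 → Fm) (v : ℕ → K)

@[simp] lemma sat_hole (i : Fin 5) : Sat O ((Tp.hole i).inst h) v ↔ Sat O (h i) v := Iff.rfl
@[simp] lemma sat_atom (φ : Fm) : Sat O ((Tp.atom φ).inst h) v ↔ Sat O φ v := Iff.rfl
@[simp] lemma sat_neg (τ : Tp) : Sat O ((Tp.neg τ).inst h) v ↔ ¬ Sat O (τ.inst h) v := Iff.rfl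
@[simp] lemma sat_and (τ υ : Tp) :
    Sat O ((Tp.and τ υ).inst h) v ↔ Sat O (τ.inst h) v ∧ Sat O (υ.inst h) v := Iff.rfl
@[simp] lemma sat_ex (i : ℕ) (τ : Tp) :
    Sat O ((Tp.ex i τ).inst h) v ↔ ∃ a : K, Sat O (τ.inst h) (update v i a) := Iff.rfl
@[simp] lemma sat_or (τ υ : Tp) :
    Sat O ((Tp.or τ υ).inst h) v ↔ Sat O (τ.inst h) v ∨ Sat O (υ.inst h) v := by
  simp only [Tp.or, sat_neg, sat_and]
  tauto
@[simp] lemma sat_imp (τ υ : Tp) :
    Sat O ((Tp.imp τ υ).inst h) v ↔ (Sat O (τ.inst h) v → Sat O (υ.inst h) v) := by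
  simp only [Tp.imp, sat_neg, sat_and]
  tauto
@[simp] lemma sat_all (i : ℕ) (τ : Tp) :
    Sat O ((Tp.all i τ).inst h) v ↔ ∀ a : K, Sat O (τ.inst h) (update v i a) := by
  simp only [Tp.all, sat_neg, sat_ex, not_exists, not_not]
@[simp] lemma sat_eqv (i j : ℕ) : Sat O ((Tp.eqv i j).inst h) v ↔ v i = v j := Iff.rfl
@[simp] lemma sat_isO (i : ℕ) : Sat O ((Tp.isO i).inst h) v ↔ v i = 1 := Iff.rfl
@[simp] lemma sat_isZ (i : ℕ) : Sat O ((Tp.isZ i).inst h) v ↔ v i = 0 := by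
  show v i + v i = v i ↔ v i = 0
  constructor
  · intro hh
    have : v i + v i = v i + 0 := by rw [hh, add_zero]
    exact add_left_cancel this
  · intro hh
    rw [hh, add_zero]

lemma sat_call1 (P : Tp) {a : ℕ} (ha : a ≠ 0) :
    Sat O ((Tp.call1 P a).inst h) v ↔ Sat O (P.inst h) (update v 0 (v a)) := by
  simp only [Tp.call1, sat_ex, sat_and, sat_eqv, update_self, update_of_ne ha]
  constructor
  · rintro ⟨x, rfl, hx⟩
    exact hx
  · intro hx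
    exact ⟨_, rfl, hx⟩

lemma sat_call2 (P : Tp) {a b : ℕ} (ha : a ≠ 0) (hb : b ≠ 0) (hb1 : b ≠ 1) :
    Sat O ((Tp.call2 P a b).inst h) v ↔
      Sat O (P.inst h) (update (update v 0 (v a)) 1 (v b)) := by
  simp only [Tp.call2, sat_ex, sat_and, sat_eqv, update_self, update_of_ne ha,
    update_of_ne hb1, update_of_ne hb]
  constructor
  · rintro ⟨x, rfl, y, rfl, hx⟩
    exact hx
  · intro hx
    exact ⟨_, rfl, _, rfl, hx⟩

lemma sat_call3 (P : Tp) {a b c : ℕ} (ha : a ≠ 0) (hb : b ≠ 0) (hb1 : b ≠ 1) (hc : c ≠ 0)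
    (hc1 : c ≠ 1) (hc2 : c ≠ 2) :
    Sat O ((Tp.call3 P a b c).inst h) v ↔
      Sat O (P.inst h) (update (update (update v 0 (v a)) 1 (v b)) 2 (v c)) := by
  simp only [Tp.call3, sat_ex, sat_and, sat_eqv, update_self, update_of_ne ha,
    update_of_ne hb1, update_of_ne hb, update_of_ne hc, update_of_ne hc1, update_of_ne hc2]
  constructor
  · rintro ⟨x, rfl, y, rfl, z, rfl, hx⟩
    exact hx
  · intro hx
    exact ⟨_, rfl, _, rfl, _, rfl, hx⟩

lemma sat_arg1 (P : Tp) :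
    Sat O ((Tp.arg1 P).inst h) v ↔ Sat O (P.inst h) (update v 10 (v 0)) := by
  have h0 : (0 : ℕ) ≠ 10 := by norm_num
  simp only [Tp.arg1, sat_ex, sat_and, sat_eqv, update_self, update_of_ne h0]
  constructor
  · rintro ⟨x, rfl, hx⟩
    exact hx
  · intro hx
    exact ⟨_, rfl, hx⟩

lemma sat_arg2 (P : Tp) :
    Sat O ((Tp.arg2 P).inst h) v ↔
      Sat O (P.inst h) (update (update v 10 (v 0)) 11 (v 1)) := by
  have h0 : (0 : ℕ) ≠ 10 := by norm_num
  have h1 : (1 : ℕ) ≠ 10 := by norm_num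
  have h2 : (1 : ℕ) ≠ 11 := by norm_num
  simp only [Tp.arg2, sat_ex, sat_and, sat_eqv, update_self, update_of_ne h0, update_of_ne h1,
    update_of_ne h2]
  constructor
  · rintro ⟨x, rfl, y, rfl, hx⟩
    exact hx
  · intro hx
    exact ⟨_, rfl, _, rfl, hx⟩

lemma sat_arg3 (P : Tp) :
    Sat O ((Tp.arg3 P).inst h) v ↔
      Sat O (P.inst h) (update (update (update v 10 (v 0)) 11 (v 1)) 12 (v 2)) := by
  have h0 : (0 : ℕ) ≠ 10 := by norm_num
  have h1 : (1 : ℕ) ≠ 10 := by norm_num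
  have h2 : (1 : ℕ) ≠ 11 := by norm_num
  have h3 : (2 : ℕ) ≠ 10 := by norm_num
  have h4 : (2 : ℕ) ≠ 11 := by norm_num
  have h5 : (2 : ℕ) ≠ 12 := by norm_num
  simp only [Tp.arg3, sat_ex, sat_and, sat_eqv, update_self, update_of_ne h0, update_of_ne h1,
    update_of_ne h2, update_of_ne h3, update_of_ne h4, update_of_ne h5]
  constructor
  · rintro ⟨x, rfl, y, rfl, z, rfl, hx⟩
    exact hx
  · intro hx
    exact ⟨_, rfl, _, rfl, _, rfl, hx⟩

/-! ### The pairing -/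

lemma sat_powF (k : ℕ) : ∀ v : ℕ → K, Sat O (powF k) v ↔ v 4 ^ k = v 5 := by
  induction k with
  | zero =>
    intro v
    show v 5 = 1 ↔ _
    rw [pow_zero]
    exact eq_comm
  | succ k ih =>
    intro v
    show (∃ a : K, (∃ b : K, update (update v 6 a) 5 b 5 = update (update v 6 a) 5 b 6 ∧
      Sat O (powF k) (update (update v 6 a) 5 b)) ∧
      update v 6 a 6 * update v 6 a 4 = update v 6 a 5) ↔ _
    have e1 : (4 : ℕ) ≠ 5 := by norm_num
    have e2 : (4 : ℕ) ≠ 6 := by norm_num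
    have e3 : (6 : ℕ) ≠ 5 := by norm_num
    have e4 : (5 : ℕ) ≠ 6 := by norm_num
    simp only [ih, update_self, update_of_ne e1, update_of_ne e2, update_of_ne e3,
      update_of_ne e4]
    constructor
    · rintro ⟨a, ⟨b, rfl, hb⟩, ha⟩
      rw [pow_succ, hb, ha]
    · intro hh
      exact ⟨v 4 ^ k, ⟨_, rfl, rfl⟩, by rw [← pow_succ, hh]⟩

lemma sat_JF (p : ℕ) (v : ℕ → K) : Sat O (JF p) v ↔ JJ p (v 3) (v 0) (v 1) = v 2 := by
  simp only [JF, Sat, sat_powF]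
  have n1 : (4 : ℕ) ≠ 5 := by norm_num
  constructor
  · rintro ⟨a, b, c, ⟨d, e, h1, h2, h3⟩, ⟨f, g, h4, h5, h6⟩, h7, h8⟩
    simp [update_apply] at h1 h2 h3 h4 h5 h6 h7 h8
    subst h1 h4
    rw [JJ, h3, h2, h6, h5, h7, h8]
  · intro hh
    refine ⟨v 0 ^ p, v 1 ^ p, v 3 * v 1 ^ p, ⟨v 0, v 0 ^ p, ?_, ?_, ?_⟩,
      ⟨v 1, v 1 ^ p, ?_, ?_, ?_⟩, ?_, ?_⟩ <;> simp [update_apply]
    exact hh

end

end Pool.Agent.Y924.EL
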