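import Mathlib

/-!
# Formulas, codes, elementary functions, templates (project EL of helper924)

The theory of every imperfect field of characteristic `p` is not elementary recursive:
`J (x, y) = x ^ p + t y ^ p` is an injective pairing, which defines finite linear orders of
length `2, 4, 16, 65536, ...` together with codes of all functions on them.
-/

set_option autoImplicit false

namespace Pool.Agent.Y924.EL

/-! ## Formulas of the language of valued fields -/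

/-- formulas; the variables are `x_0, x_1, ...` -/
inductive Fm : Type
  | eq (i j : ℕ)
  | one (i : ℕ)
  | add (i j k : ℕ)
  | mul (i j k : ℕ)
  | val (i : ℕ)
  | neg (φ : Fm)
  | and (φ ψ : Fm)
  | ex (i : ℕ) (φ : Fm)

/-- truth of a formula in the structure `(K, +, ·, 1, O)` under the assignment `v` -/
def Sat {K : Type*} [Add K] [Mul K] [One K] (O : Set K) : Fm → (ℕ → K) → Prop
  | .eq i j, v => v i = v j
  | .one i, v => v i = 1
  | .add i j k, v => v i + v j = v k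
  | .mul i j k, v => v i * v j = v k
  | .val i, v => v i ∈ O
  | .neg φ, v => ¬ Sat O φ v
  | .and φ ψ, v => Sat O φ v ∧ Sat O ψ v
  | .ex i φ, v => ∃ a : K, Sat O φ (Function.update v i a)

/-- the code (Gödel number) of a formula -/
def Fm.code : Fm → ℕ
  | .eq i j => Nat.pair 0 (Nat.pair i j)
  | .one i => Nat.pair 1 i
  | .add i j k => Nat.pair 2 (Nat.pair i (Nat.pair j k))
  | .mul i j k => Nat.pair 3 (Nat.pair i (Nat.pair j k))
  | .val i => Nat.pair 4 i
  | .neg φ => Nat.pair 5 φ.code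
  | .and φ ψ => Nat.pair 6 (Nat.pair φ.code ψ.code)
  | .ex i φ => Nat.pair 7 (Nat.pair i φ.code)

/-- the free variables of a formula -/
def Fm.fv : Fm → Finset ℕ
  | .eq i j => {i, j}
  | .one i => {i}
  | .add i j k => {i, j, k}
  | .mul i j k => {i, j, k}
  | .val i => {i}
  | .neg φ => φ.fv
  | .and φ ψ => φ.fv ∪ ψ.fv
  | .ex i φ => φ.fv.erase i

/-- the formula does not mention the valuation and uses only the variables `x_0, ..., x_{V-1}` -/
def Fm.InRing (V : ℕ) : Fm → Prop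
  | .eq i j => i < V ∧ j < V
  | .one i => i < V
  | .add i j k => i < V ∧ j < V ∧ k < V
  | .mul i j k => i < V ∧ j < V ∧ k < V
  | .val _ => False
  | .neg φ => φ.InRing V
  | .and φ ψ => φ.InRing V ∧ ψ.InRing V
  | .ex i φ => i < V ∧ φ.InRing V

/-! ## Elementary functions -/

/-- primitive recursion in the form `F (z, 0) = f z`, `F (z, n + 1) = g (z, (n, F (z, n)))` -/
def recF (f g : ℕ → ℕ) (w : ℕ) : ℕ :=
  Nat.rec (motive := fun _ => ℕ) (f w.unpair.1)
    (fun y r => g (Nat.pair w.unpair.1 (Nat.pair y r))) w.unpair.2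

/-- the Kalmár elementary functions of one argument (Grzegorczyk's class E³), by composition and
limited recursion -/
inductive E3 : (ℕ → ℕ) → Prop
  | zero : E3 fun _ => 0
  | succ : E3 fun n => n + 1
  | left : E3 fun n => n.unpair.1
  | right : E3 fun n => n.unpair.2
  | pow : E3 fun n => 2 ^ n
  | pair {f g : ℕ → ℕ} : E3 f → E3 g → E3 fun n => Nat.pair (f n) (g n)
  | comp {f g : ℕ → ℕ} : E3 f → E3 g → E3 fun n => f (g n)
  | limrec {f g b : ℕ → ℕ} : E3 f → E3 g → E3 b → (∀ n, recF f g n ≤ b n) → E3 (recF f g)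

/-- the tower of twos of height `k` over `x` -/
def tower : ℕ → ℕ → ℕ
  | 0, x => x
  | k + 1, x => 2 ^ tower k x

/-! ## Records of computations -/

/-- the triple (program, input, output) -/
def tr (c x y : ℕ) : ℕ := Nat.pair c (Nat.pair x y)

/-- the triple `t` is justified by the triples in `W` -/
def Just (W : Set ℕ) (t : ℕ) : Prop :=
  ∃ c x y g c1 c2 : ℕ, t = tr c x y ∧ c = Nat.pair g (Nat.pair c1 c2) ∧
    ((g = 0 ∧ y = 0) ∨ (g = 1 ∧ y = x + 1) ∨ (g = 2 ∧ ∃ v, x = Nat.pair y v) ∨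
      (g = 3 ∧ ∃ v, x = Nat.pair v y) ∨
      (g = 4 ∧ ∃ a b, tr c1 x a ∈ W ∧ tr c2 x b ∈ W ∧ y = Nat.pair a b) ∨
      (g = 5 ∧ ∃ a, tr c2 x a ∈ W ∧ tr c1 a y ∈ W) ∨
      (g = 6 ∧ ∃ z n, x = Nat.pair z n ∧ ((n = 0 ∧ tr c1 z y ∈ W) ∨
        ∃ k i, n = k + 1 ∧ tr c (Nat.pair z k) i ∈ W ∧
          tr c2 (Nat.pair z (Nat.pair k i)) y ∈ W)))

/-- every triple in `W` is justified by the triples in `W` -/
def Closed (W : Set ℕ) : Prop := ∀ t ∈ W, Just W t

/-! ## Levels: finite linear orders with codes of functions -/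

/-- a domain `D`, an order `L` on it, and an evaluation relation `E s i v` (the `i`-th value of `s`
is `v`) -/
structure Lev (K : Type*) where
  D : K → Prop
  L : K → K → Prop
  E : K → K → K → Prop

section Lev

variable {K : Type*} (M : Lev K)

/-- first element -/
def Fst (i : K) : Prop := M.D i ∧ ¬ ∃ j, M.D j ∧ M.L j i

/-- last element -/
def Lst (i : K) : Prop := M.D i ∧ ¬ ∃ j, M.D j ∧ M.L i j

/-- successor -/
def Suc (i j : K) : Prop := M.D i ∧ M.D j ∧ M.L i j ∧ ¬ ∃ k, M.D k ∧ M.L i k ∧ M.L k j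

/-- `e` enumerates the domain increasingly, `N` elements -/
def Enum (N : ℕ) (e : ℕ → K) : Prop :=
  (∀ x, M.D x ↔ ∃ k, k < N ∧ x = e k) ∧ ∀ j k, j < N → k < N → (M.L (e j) (e k) ↔ j < k)

/-- the level is a linear order with `N` elements, and its evaluation relation codes all
functions, uniquely -/
structure Good (N : ℕ) : Prop where
  enum : ∃ e : ℕ → K, Enum M N e
  func : ∀ s i v v', M.D i → M.E s i v → M.E s i v' → v = v'
  comp : ∀ φ : K → K, ∃ s, ∀ i, M.D i → M.E s i (φ i)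
  ext : ∀ s s', (∀ i, M.D i → ∃ v, M.E s i v ∧ M.E s' i v) → s = s'

variable (J : K → K → K) (z0 z1 : K)

/-- `y` is the child of `x` in the direction given by the `i`-th bit of `a` -/
def Ch (a i x y : K) : Prop := ∃ u, (M.E a i z0 ∧ J y u = x) ∨ (M.E a i z1 ∧ J u y = x)

/-- the first level: two elements -/
def lev0 : Lev K where
  D x := x = z0 ∨ x = z1
  L x y := x = z0 ∧ y = z1
  E s i v := (i = z0 ∧ ∃ u, J v u = s) ∨ (i = z1 ∧ ∃ u, J u v = s)

/-- the next level -/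
def nextLev : Lev K where
  D a := ∀ i, M.D i → M.E a i z0 ∨ M.E a i z1
  L a b := ∃ i, M.D i ∧ M.E a i z0 ∧ M.E b i z1 ∧
    ∀ j, M.D j → M.L j i → (M.E a j z0 ∧ M.E b j z0) ∨ (M.E a j z1 ∧ M.E b j z1)
  E s a v := ∃ w, (∀ i, Fst M i → M.E w i s) ∧
    (∀ i j, Suc M i j → ∃ x y, M.E w i x ∧ M.E w j y ∧ Ch M J z0 z1 a i x y) ∧
    ∀ i, Lst M i → ∃ x, M.E w i x ∧ Ch M J z0 z1 a i x v

/-- one step in the enumeration of pairs: `unpair (c + 1)` from `unpair c` -/
def Nxt (x y x' y' : K) : Prop :=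
  (∃ u, Suc M x u ∧ M.L u y ∧ x' = u ∧ y' = y) ∨ (Suc M x y ∧ x' = y ∧ Fst M y') ∨
    (M.L y x ∧ x' = x ∧ Suc M y y') ∨ (x = y ∧ Fst M x' ∧ Suc M x y')

/-- `c` is the pair of `a` and `b` -/
def PairR (a b c : K) : Prop :=
  M.D c ∧ ∃ s r, (∀ i, Fst M i → M.E s i i ∧ M.E r i i) ∧
    (∀ i j, Suc M i j → ∃ x y x' y', M.E s i x ∧ M.E r i y ∧ M.E s j x' ∧ M.E r j y' ∧
      Nxt M x y x' y') ∧ M.E s c a ∧ M.E r c b

/-- `g` is the number `k` -/
def Num : ℕ → K → Prop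
  | 0, g => Fst M g
  | k + 1, g => ∃ h, Num k h ∧ Suc M h g

/-- the triple `(c, x, y)` belongs to the set coded by `w` -/
def Mem (w c x y : K) : Prop := ∃ q t, PairR M x y q ∧ PairR M c q t ∧ M.E w t z1

/-- the level version of `Just` -/
def JustR (w t : K) : Prop :=
  ∃ c q x y g c' c1 c2, PairR M c q t ∧ PairR M x y q ∧ PairR M g c' c ∧ PairR M c1 c2 c' ∧
    ((Num M 0 g ∧ Fst M y) ∨ (Num M 1 g ∧ Suc M x y) ∨ (Num M 2 g ∧ ∃ v, PairR M y v x) ∨
      (Num M 3 g ∧ ∃ v, PairR M v y x) ∨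
      (Num M 4 g ∧ ∃ a b, Mem M z1 w c1 x a ∧ Mem M z1 w c2 x b ∧ PairR M a b y) ∨
      (Num M 5 g ∧ ∃ a, Mem M z1 w c2 x a ∧ Mem M z1 w c1 a y) ∨
      (Num M 6 g ∧ ∃ z n, PairR M z n x ∧ ((Fst M n ∧ Mem M z1 w c1 z y) ∨
        ∃ k i xk q2 x2, Suc M k n ∧ PairR M z k xk ∧ Mem M z1 w c xk i ∧ PairR M k i q2 ∧
          PairR M z q2 x2 ∧ Mem M z1 w c2 x2 y)))

/-- the program `c` has on the input `x` the output `y`, with a record inside the level -/
def Uni (c x y : K) : Prop :=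
  ∃ w, (∀ t, M.D t → M.E w t z1 → JustR M z1 w t) ∧ Mem M z1 w c x y

end Lev

/-! ## Templates: formulas with five holes -/

/-- templates; hole 0: `D` (argument `x_0`), hole 1: `L` (arguments `x_0, x_1`), hole 2: `E`
(arguments `x_0, x_1, x_2`), hole 3: a number (argument `x_0`), hole 4: `PairR` (arguments
`x_0, x_1, x_2`); the variable `x_3` holds `t` throughout -/
inductive Tp : Type
  | hole (i : Fin 5)
  | atom (φ : Fm)
  | neg (τ : Tp)
  | and (τ υ : Tp)
  | ex (i : ℕ) (τ : Tp)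

/-- filling the holes -/
def Tp.inst : Tp → (Fin 5 → Fm) → Fm
  | .hole i, h => h i
  | .atom φ, _ => φ
  | .neg τ, h => .neg (τ.inst h)
  | .and τ υ, h => .and (τ.inst h) (υ.inst h)
  | .ex i τ, h => .ex i (τ.inst h)

/-- the codes of five formulas as one number -/
def st (h : Fin 5 → Fm) : ℕ :=
  Nat.pair (h 0).code (Nat.pair (h 1).code (Nat.pair (h 2).code
    (Nat.pair (h 3).code (h 4).code)))

/-- the components of such a number -/
def comp5 (i : Fin 5) (s : ℕ) : ℕ :=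
  match i with
  | 0 => s.unpair.1
  | 1 => s.unpair.2.unpair.1
  | 2 => s.unpair.2.unpair.2.unpair.1
  | 3 => s.unpair.2.unpair.2.unpair.2.unpair.1
  | 4 => s.unpair.2.unpair.2.unpair.2.unpair.2

/-- the code of a filled template from the codes in the holes -/
def Tp.cd : Tp → ℕ → ℕ
  | .hole i, s => comp5 i s
  | .atom φ, _ => φ.code
  | .neg τ, s => Nat.pair 5 (τ.cd s)
  | .and τ υ, s => Nat.pair 6 (Nat.pair (τ.cd s) (υ.cd s))
  | .ex i τ, s => Nat.pair 7 (Nat.pair i (τ.cd s))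

/-- filling all holes with templates -/
def stepH (T : Fin 5 → Tp) (h : Fin 5 → Fm) : Fin 5 → Fm := fun i => (T i).inst h

/-- the same on codes -/
def cdT (T : Fin 5 → Tp) (s : ℕ) : ℕ :=
  Nat.pair ((T 0).cd s) (Nat.pair ((T 1).cd s) (Nat.pair ((T 2).cd s)
    (Nat.pair ((T 3).cd s) ((T 4).cd s))))

namespace Tp

def or (τ υ : Tp) : Tp := .neg (.and (.neg τ) (.neg υ))
def imp (τ υ : Tp) : Tp := .neg (.and τ (.neg υ))
def all (i : ℕ) (τ : Tp) : Tp := .neg (.ex i (.neg τ))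

/-- `x_i = 0` -/
def isZ (i : ℕ) : Tp := .atom (.add i i i)
/-- `x_i = 1` -/
def isO (i : ℕ) : Tp := .atom (.one i)
def eqv (i j : ℕ) : Tp := .atom (.eq i j)

/-- calls: the arguments must be variables `x_i` with `i ≥ 10` -/
def call1 (P : Tp) (a : ℕ) : Tp := .ex 0 (.and (eqv 0 a) P)
def call2 (P : Tp) (a b : ℕ) : Tp := .ex 0 (.and (eqv 0 a) (.ex 1 (.and (eqv 1 b) P)))
def call3 (P : Tp) (a b c : ℕ) : Tp :=
  .ex 0 (.and (eqv 0 a) (.ex 1 (.and (eqv 1 b) (.ex 2 (.and (eqv 2 c) P)))))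

/-- copies of the arguments to the variables `x_10, x_11, x_12` -/
def arg1 (P : Tp) : Tp := .ex 10 (.and (eqv 10 0) P)
def arg2 (P : Tp) : Tp := .ex 10 (.and (eqv 10 0) (.ex 11 (.and (eqv 11 1) P)))
def arg3 (P : Tp) : Tp :=
  .ex 10 (.and (eqv 10 0) (.ex 11 (.and (eqv 11 1) (.ex 12 (.and (eqv 12 2) P)))))

def cD (a : ℕ) : Tp := call1 (.hole 0) a
def cL (a b : ℕ) : Tp := call2 (.hole 1) a b
def cE (a b c : ℕ) : Tp := call3 (.hole 2) a b c
def cA (a : ℕ) : Tp := call1 (.hole 3) a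
def cP (a b c : ℕ) : Tp := call3 (.hole 4) a b c

end Tp

/-- `x_4 ^ k = x_5` -/
def powF : ℕ → Fm
  | 0 => .one 5
  | k + 1 => .ex 6 (.and (.ex 5 (.and (.eq 5 6) (powF k))) (.mul 6 4 5))

/-- `x_0 ^ p + x_3 x_1 ^ p = x_2` -/
def JF (p : ℕ) : Fm :=
  .ex 7 (.ex 8 (.ex 9 (.and (.ex 4 (.ex 5 (.and (.eq 4 0) (.and (.eq 5 7) (powF p)))))
    (.and (.ex 4 (.ex 5 (.and (.eq 4 1) (.and (.eq 5 8) (powF p)))))
      (.and (.mul 3 8 9) (.add 7 9 2))))))

namespace Tp

def cJ (p : ℕ) (a b c : ℕ) : Tp := call3 (.atom (JF p)) a b c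

/-- `E a b 0` and `E a b 1` -/
def cE0 (a b : ℕ) : Tp := .ex 29 (.and (isZ 29) (cE a b 29))
def cE1 (a b : ℕ) : Tp := .ex 29 (.and (isO 29) (cE a b 29))

def cFst (a : ℕ) : Tp := .and (cD a) (.neg (.ex 18 (.and (cD 18) (cL 18 a))))
def cLst (a : ℕ) : Tp := .and (cD a) (.neg (.ex 18 (.and (cD 18) (cL a 18))))
def cSuc (a b : ℕ) : Tp :=
  .and (cD a) (.and (cD b) (.and (cL a b)
    (.neg (.ex 18 (.and (cD 18) (.and (cL a 18) (cL 18 b)))))))

def cCh (p : ℕ) (a i x y : ℕ) : Tp :=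
  .ex 19 (or (.and (cE0 a i) (cJ p y 19 x)) (.and (cE1 a i) (cJ p 19 y x)))

/-- first level -/
def D0 : Tp := arg1 (or (isZ 10) (isO 10))
def L0 : Tp := arg2 (.and (isZ 10) (isO 11))
def E0 (p : ℕ) : Tp :=
  arg3 (or (.and (isZ 11) (.ex 13 (cJ p 12 13 10))) (.and (isO 11) (.ex 13 (cJ p 13 12 10))))

/-- next level -/
def D1 : Tp := arg1 (all 11 (imp (cD 11) (or (cE0 10 11) (cE1 10 11))))
def L1 : Tp :=
  arg2 (.ex 12 (.and (cD 12) (.and (cE0 10 12) (.and (cE1 11 12)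
    (all 13 (imp (cD 13) (imp (cL 13 12)
      (or (.and (cE0 10 13) (cE0 11 13)) (.and (cE1 10 13) (cE1 11 13))))))))))
def E1 (p : ℕ) : Tp :=
  arg3 (.ex 13 (.and (all 14 (imp (cFst 14) (cE 13 14 10)))
    (.and (all 14 (all 15 (imp (cSuc 14 15)
        (.ex 16 (.ex 17 (.and (cE 13 14 16) (.and (cE 13 15 17) (cCh p 11 14 16 17))))))))
      (all 14 (imp (cLst 14) (.ex 16 (.and (cE 13 14 16) (cCh p 11 14 16 12))))))))

/-- numbers -/
def A0 : Tp := arg1 (cFst 10)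
def A1 : Tp := arg1 (.ex 11 (.and (cA 11) (cSuc 11 10)))

/-- one step of the enumeration of pairs -/
def cNxt (x y x' y' : ℕ) : Tp :=
  or (.ex 19 (.and (cSuc x 19) (.and (cL 19 y) (.and (eqv x' 19) (eqv y' y)))))
    (or (.and (cSuc x y) (.and (eqv x' y) (cFst y')))
      (or (.and (cL y x) (.and (eqv x' x) (cSuc y y')))
        (.and (eqv x y) (.and (cFst x') (cSuc x y')))))

/-- the pairing relation -/
def P1 : Tp :=
  arg3 (.and (cD 12) (.ex 13 (.ex 14 (.and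
    (all 15 (imp (cFst 15) (.and (cE 13 15 15) (cE 14 15 15))))
    (.and (all 15 (all 16 (imp (cSuc 15 16) (.ex 20 (.ex 21 (.ex 22 (.ex 23
        (.and (cE 13 15 20) (.and (cE 14 15 21) (.and (cE 13 16 22) (.and (cE 14 16 23)
          (cNxt 20 21 22 23))))))))))))
      (.and (cE 13 12 10) (cE 14 12 11)))))))

/-- `x_a` is the number `k` -/
def cNum : ℕ → ℕ → Tp
  | 0, a => cFst a
  | k + 1, a => .ex 30 (.and (eqv 30 a) (.ex 31 (.and (.ex 32 (.and (eqv 32 31)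
      (cNum k 32))) (cSuc 31 30))))

/-- membership of the triple `(x_c, x_x, x_y)` in the set coded by `x_w` -/
def cMem (w c x y : ℕ) : Tp :=
  .ex 27 (.ex 28 (.and (cP x y 27) (.and (cP c 27 28) (cE1 w 28))))

/-- the seventh case of `JustR` (recursion) -/
def cRec : Tp :=
  .ex 48 (.ex 49 (.and (cP 48 49 42) (or (.and (cFst 49) (cMem 13 46 48 43))
    (.ex 50 (.ex 51 (.ex 52 (.ex 53 (.ex 54 (.and (cSuc 50 49) (.and (cP 48 50 52)
      (.and (cMem 13 40 52 51) (.and (cP 50 51 53) (.and (cP 48 53 54)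
        (cMem 13 47 54 43))))))))))))))

/-- the cases of `JustR` -/
def cCases : Tp :=
  or (.and (cNum 0 44) (cFst 43)) (or (.and (cNum 1 44) (cSuc 42 43))
    (or (.and (cNum 2 44) (.ex 48 (cP 43 48 42))) (or (.and (cNum 3 44) (.ex 48 (cP 48 43 42)))
    (or (.and (cNum 4 44) (.ex 48 (.ex 49 (.and (cMem 13 46 42 48) (.and (cMem 13 47 42 49)
      (cP 48 49 43))))))
    (or (.and (cNum 5 44) (.ex 48 (.and (cMem 13 47 42 48) (cMem 13 46 48 43))))
    (.and (cNum 6 44) cRec))))))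

/-- `JustR`: `w` in `x_13`, `t` in `x_14`; `c, q, x, y, g, c', c1, c2` in `x_40, ..., x_47` -/
def cJust : Tp :=
  .ex 40 (.ex 41 (.ex 42 (.ex 43 (.ex 44 (.ex 45 (.ex 46 (.ex 47
    (.and (cP 40 41 14) (.and (cP 42 43 41) (.and (cP 44 45 40) (.and (cP 46 47 45)
      cCases)))))))))))

/-- `Uni` for `c, x, y` in `x_10, x_11, x_12` -/
def cUni : Tp :=
  .ex 13 (.and (all 14 (imp (cD 14) (imp (cE1 13 14) cJust))) (cMem 13 10 11 12))

/-- the body of the final sentence: the number in hole 3 is `n`, and the program `left n` has on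
the input `n` the output 1 -/
def Body : Tp :=
  .ex 11 (.and (cA 11) (.ex 10 (.ex 15 (.and (cP 10 15 11) (.ex 12 (.and (cNum 1 12) cUni))))))

/-- `t` (in `x_3`) makes the pairing injective -/
def InjT (p : ℕ) : Tp :=
  all 10 (all 11 (all 12 (all 13 (all 14 (imp (cJ p 10 11 14) (imp (cJ p 12 13 14)
    (.and (eqv 10 12) (eqv 11 13))))))))

/-- the final sentence -/
def Fin1 (p : ℕ) : Tp := .ex 3 (.and (InjT p) Body)

end Tp

/-- the formulas of the first level (holes 3 and 4 not yet used) -/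
def h0 (p : ℕ) : Fin 5 → Fm :=
  ![Tp.D0.inst fun _ => .one 0, Tp.L0.inst fun _ => .one 0, (Tp.E0 p).inst fun _ => .one 0,
    .one 0, .one 0]

/-- next level -/
def TL (p : ℕ) : Fin 5 → Tp := ![Tp.D1, Tp.L1, Tp.E1 p, .hole 3, .hole 4]

/-- the number 0 and the pairing relation of the level -/
def TA0 : Fin 5 → Tp := ![.hole 0, .hole 1, .hole 2, Tp.A0, Tp.P1]

/-- the next number -/
def TA1 : Fin 5 → Tp := ![.hole 0, .hole 1, .hole 2, Tp.A1, .hole 4]

/-- the formulas before the last step -/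
def hfin (p m : ℕ) : Fin 5 → Fm := (stepH TA1)^[m] (stepH TA0 ((stepH (TL p))^[m] (h0 p)))

/-- the sentence number `m` -/
def sent (p m : ℕ) : Fm := (Tp.Fin1 p).inst (hfin p m)

/-- its code -/
def codeOf (p m : ℕ) : ℕ :=
  (Tp.Fin1 p).cd ((cdT TA1)^[m] (cdT TA0 ((cdT (TL p))^[m] (st (h0 p)))))

end Pool.Agent.Y924.EL
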