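import Pool.Agent.Y924.EL.Stm

/-! # Bounded evaluation of programs is elementary -/

set_option autoImplicit false

namespace Pool.Agent.Y924.EL

/-- the result of the bounded evaluation of the program `c` (Mathlib's `Nat.Partrec.Code.evaln`)
with the bound `k` on the input `n`, for `w = pair k n`: 0 if there is none, `y + 1` if it is
`y` -/
def evn (c : Nat.Partrec.Code) (w : ℕ) : ℕ :=
  match Nat.Partrec.Code.evaln w.unpair.1 c w.unpair.2 with
  | none => 0
  | some y => y + 1

/-- EL-EVALN -/
def S_EVALN : Prop := ∀ c : Nat.Partrec.Code, E3 (evn c)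

/-- EL-GROW: the codes of the sentences tend to infinity -/
def S_GROW : Prop := ∀ p m : ℕ, m ≤ (sent p m).code

end Pool.Agent.Y924.EL
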