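import Pool.Agent.Y924.EL.Sem5
import Pool.Agent.Y924.EL.Stm2
import Pool.Agent.Y638.EL.Rec
import Pool.Agent.Y151.EL.Uniq
import Pool.Agent.Y555.EL.Code
import Pool.Agent.Y692.EL.Lev0
import Pool.Agent.Y692.EL.FV
import Pool.Agent.Y692.EL.Grow
import Pool.Agent.Y972.EL.ENUM
import Pool.Agent.Y972.EL.PAIR
import Pool.Agent.Y972.EL.UNI
import Pool.Agent.Y562.EL.EVAL

/-! # No elementary function decides the theory of a ring with an injective pairing -/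

set_option autoImplicit false

namespace Pool.Agent.Y924.EL

open Function

theorem tower_ge (k x : ℕ) : k + x ≤ tower k x := Pool.Agent.Y638.EL.add_le_tower k x

theorem good_levN {K : Type} {J : K → K → K} {z0 z1 : K} (hJ : Inj2 J) (hz : z0 ≠ z1) (n : ℕ) :
    Good (levN J z0 z1 n) (tower n 2) := by
  induction n with
  | zero => exact Pool.Agent.Y692.EL.t_LEV0 K J z0 z1 hJ hz
  | succ n ih =>
    have h1 : 1 ≤ tower n 2 := by
      have := tower_ge n 2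
      omega
    obtain ⟨e, he⟩ := Pool.Agent.Y972.EL.t_ENUM K J z0 z1 _ _ hz ih
    obtain ⟨h2, h3, h4⟩ := Pool.Agent.Y562.EL.t_EVAL K J z0 z1 _ _ hJ hz h1 ih
    exact ⟨⟨e, he⟩, h2, h3, h4⟩

section

variable {K : Type} [CommRing K] (O : Set K) (t : K) (p : ℕ)

theorem rep_levN (m : ℕ) :
    Rep O t ((stepH (TL p))^[m] (h0 p)) (levN (JJ p t) 0 1 m) := by
  induction m with
  | zero => exact t_SEM0 K O p t
  | succ m ih =>
    rw [iterate_succ_apply']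
    exact t_SEM1 K O p t _ _ ih

theorem rep_fin (m : ℕ) : Rep O t (hfin p m) (levN (JJ p t) 0 1 m) ∧
    Rep2 O t (hfin p m) (levN (JJ p t) 0 1 m) m := by
  have h1 := t_SEMA0 K O t _ _ (rep_levN O t p m)
  have h2 : ∀ k : ℕ, Rep O t ((stepH TA1)^[k] (stepH TA0 ((stepH (TL p))^[m] (h0 p))))
      (levN (JJ p t) 0 1 m) ∧ Rep2 O t ((stepH TA1)^[k] (stepH TA0 ((stepH (TL p))^[m] (h0 p))))
      (levN (JJ p t) 0 1 m) k := by
    intro k
    induction k with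
    | zero => exact h1
    | succ k ih =>
      rw [iterate_succ_apply']
      exact t_SEMA1 K O t _ _ _ ih.1 ih.2
  exact h2 m

theorem sat_sent (m : ℕ) (v : ℕ → K) : Sat O (sent p m) v ↔ ∃ t : K, Inj2 (JJ p t) ∧
    ∃ n c r y, Num (levN (JJ p t) 0 1 m) m n ∧ PairR (levN (JJ p t) 0 1 m) c r n ∧
      Num (levN (JJ p t) 0 1 m) 1 y ∧ Uni (levN (JJ p t) 0 1 m) 1 c n y := by
  show (∃ a : K, Sat O ((Tp.InjT p).inst (hfin p m)) (update v 3 a) ∧
    Sat O (Tp.Body.inst (hfin p m)) (update v 3 a)) ↔ _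
  refine exists_congr fun a => ?_
  rw [t_SEMI K O p a _ _ (update_self _ _ _),
    t_SEMB K O a _ _ m (rep_fin O a p m).1 (rep_fin O a p m).2 _ (update_self _ _ _)]

end

/-- there is a record for the output 1 of the program `left m` on the input `m` below `N_m` -/
def Acc (m : ℕ) : Prop := ∃ W : Set ℕ, Closed W ∧ tr m.unpair.1 m 1 ∈ W ∧ ∀ s ∈ W, s < tower m 2

theorem sat_sent_iff {K : Type} [CommRing K] [Nontrivial K] (O : Set K) (p : ℕ)
    (hK : ∃ t : K, Inj2 (JJ p t)) (m : ℕ) (v : ℕ → K) : Sat O (sent p m) v ↔ Acc m := by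
  have hm : m + 2 ≤ tower m 2 := tower_ge m 2
  have key : ∀ t : K, Inj2 (JJ p t) → ((∃ n c r y, Num (levN (JJ p t) 0 1 m) m n ∧
      PairR (levN (JJ p t) 0 1 m) c r n ∧
      Num (levN (JJ p t) 0 1 m) 1 y ∧ Uni (levN (JJ p t) 0 1 m) 1 c n y) ↔ Acc m) := by
    intro t ht
    have hG : Good (levN (JJ p t) 0 1 m) (tower m 2) := good_levN ht zero_ne_one m
    obtain ⟨e, he⟩ := hG.enum
    have hP := Pool.Agent.Y972.EL.t_PAIR
    have hl : m.unpair.1 ≤ m := Nat.unpair_left_le m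
    have hr : m.unpair.2 ≤ m := Nat.unpair_right_le m
    have hU := Pool.Agent.Y972.EL.t_UNI hP K _ _ e 0 1 hG he zero_ne_one m.unpair.1 m 1
      (by omega) (by omega) (by omega)
    rw [Acc, ← hU]
    constructor
    · rintro ⟨n, c, r, y, h1, h2, h3, h4⟩
      obtain ⟨-, rfl⟩ := (Pool.Agent.Y972.EL.num_iff he m n).1 h1
      obtain ⟨-, rfl⟩ := (Pool.Agent.Y972.EL.num_iff he 1 y).1 h3
      obtain ⟨i, j, hij, rfl, rfl, h5⟩ := (hP K _ _ e hG he _ _ _).1 h2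
      have h6 : m = Nat.pair i j := Pool.Agent.Y972.EL.enum_inj he (by omega) hij h5
      have h7 : m.unpair.1 = i := by rw [h6, Nat.unpair_pair]
      rw [h7]
      exact h4
    · intro h4
      refine ⟨e m, e m.unpair.1, e m.unpair.2, e 1, ?_, ?_, ?_, h4⟩
      · exact (Pool.Agent.Y972.EL.num_iff he m _).2 ⟨by omega, rfl⟩
      · refine (hP K _ _ e hG he _ _ _).2 ⟨m.unpair.1, m.unpair.2, ?_, rfl, rfl, ?_⟩
        · rw [Nat.pair_unpair]
          omega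
        · rw [Nat.pair_unpair]
      · exact (Pool.Agent.Y972.EL.num_iff he 1 _).2 ⟨by omega, rfl⟩
  rw [sat_sent]
  constructor
  · rintro ⟨t, ht, h⟩
    exact (key t ht).1 h
  · intro h
    obtain ⟨t, ht⟩ := hK
    exact ⟨t, ht, (key t ht).2 h⟩

/-- diagonalization -/
theorem diag (p : ℕ) (χ : ℕ → ℕ) (hχ : E3 χ) (B : ℕ) : ∃ m : ℕ, B ≤ m ∧
    ((Acc m ∧ χ (sent p m).code = 0) ∨ (¬ Acc m ∧ χ (sent p m).code ≠ 0)) := by
  have hf : E3 fun n => if χ (codeOf p n) = 0 then 1 else 0 :=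
    t_SG _ (E3.comp hχ (t_CODE p))
  obtain ⟨c, k, hck⟩ := Pool.Agent.Y638.EL.t_REC _ hf
  obtain ⟨n, hn⟩ : ∃ n, n = Nat.pair c (2 * k + 2 + B) := ⟨_, rfl⟩
  have h1 : 2 * k + 2 + B ≤ n := by
    rw [hn]
    exact Nat.right_le_pair _ _
  have h2 : tower k n ≤ tower n 2 := by
    obtain ⟨m, rfl⟩ : ∃ m, n = k + m := ⟨n - k, by omega⟩
    conv_rhs => rw [Pool.Agent.Y151.EL.tower_add]
    apply Pool.Agent.Y151.EL.tower_mono
    have := Pool.Agent.Y151.EL.tower_ge m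
    omega
  have h3 : n.unpair.1 = c := by rw [hn, Nat.unpair_pair]
  obtain ⟨W, hW1, hW2, hW3⟩ := hck n
  refine ⟨n, by omega, ?_⟩
  rw [t_CODEEQ]
  by_cases h4 : χ (codeOf p n) = 0
  · left
    refine ⟨⟨W, hW1, ?_, fun s hs => lt_of_lt_of_le (hW3 s hs) h2⟩, h4⟩
    rw [h3]
    simpa [h4] using hW2
  · right
    refine ⟨?_, h4⟩
    rintro ⟨W', hW'1, hW'2, -⟩
    rw [h3] at hW'2
    have h5 := Pool.Agent.Y151.EL.t_UNIQ W W' c n _ _ hW1 hW'1 hW2 hW'2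
    simp [h4] at h5

/-- the theorem for rings with an injective pairing -/
theorem main (p : ℕ) (χ : ℕ → ℕ) (hχ : E3 χ) (B : ℕ) : ∃ φ : Fm, φ.fv = ∅ ∧ φ.InRing 64 ∧
    B ≤ φ.code ∧
    ((χ φ.code = 0 ∧ ∀ (K : Type) [CommRing K] [Nontrivial K] (O : Set K) (v : ℕ → K),
        (∃ t : K, Inj2 (JJ p t)) → Sat O φ v) ∨
      (χ φ.code ≠ 0 ∧ ∀ (K : Type) [CommRing K] [Nontrivial K] (O : Set K) (v : ℕ → K),
        (∃ t : K, Inj2 (JJ p t)) → ¬ Sat O φ v)) := by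
  obtain ⟨m, hm, h⟩ := diag p χ hχ B
  refine ⟨sent p m, Pool.Agent.Y692.EL.t_FV p m, Pool.Agent.Y692.EL.t_RING p m,
    hm.trans (Pool.Agent.Y692.EL.t_GROW p m), ?_⟩
  rcases h with ⟨h1, h2⟩ | ⟨h1, h2⟩
  · left
    refine ⟨h2, fun K _ _ O v hK => ?_⟩
    rwa [sat_sent_iff O p hK]
  · right
    refine ⟨h2, fun K _ _ O v hK => ?_⟩
    rwa [sat_sent_iff O p hK]

end Pool.Agent.Y924.EL
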