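import Pool.Agent.Y924.EL.Main
import Pool.Agent.Y154.EL.Evaln

/-! # Programs and proofs -/

set_option autoImplicit false

namespace Pool.Agent.Y924.EL

open Function
open Nat.Partrec (Code)

/-- bounded search is elementary -/
theorem e_search {R b : ℕ → ℕ} (hR : E3 R) (hb : E3 b) :
    E3 fun n => if (∀ w ≤ b n, R (Nat.pair n w) = 0) then 0 else 1 := by
  classical
  obtain ⟨f, hf⟩ : ∃ f : ℕ → ℕ, f = fun z => if R (Nat.pair z 0) = 0 then 0 else 1 := ⟨_, rfl⟩
  obtain ⟨g, hg⟩ : ∃ g : ℕ → ℕ, g = fun u => if u.unpair.2.unpair.2 = 0 then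
    (if R (Nat.pair u.unpair.1 (u.unpair.2.unpair.1 + 1)) = 0 then 0 else 1) else 1 := ⟨_, rfl⟩
  have e1 : E3 f := by
    rw [hf]
    exact Pool.Agent.Y154.EL.e_ite
      (E3.comp (f := R) hR (E3.pair Pool.Agent.Y154.EL.e_id (Pool.Agent.Y154.EL.e_const 0)))
      (Pool.Agent.Y154.EL.e_const 0) (Pool.Agent.Y154.EL.e_const 1)
  have e2 : E3 g := by
    rw [hg]
    refine Pool.Agent.Y154.EL.e_ite (Pool.Agent.Y154.EL.e_right E3.right) ?_
      (Pool.Agent.Y154.EL.e_const 1)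
    refine Pool.Agent.Y154.EL.e_ite ?_
      (Pool.Agent.Y154.EL.e_const 0) (Pool.Agent.Y154.EL.e_const 1)
    exact E3.comp (f := R) hR (E3.pair E3.left
      (Pool.Agent.Y154.EL.e_succ (Pool.Agent.Y154.EL.e_left E3.right)))
  have key : ∀ z n, recF f g (Nat.pair z n) =
      if (∀ w ≤ n, R (Nat.pair z w) = 0) then 0 else 1 := by
    intro z n
    induction n with
    | zero =>
      rw [Pool.Agent.Y154.EL.recF_zero, hf]
      simp
    | succ n ih =>
      rw [Pool.Agent.Y154.EL.recF_succ, ih, hg]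
      simp only [Nat.unpair_pair]
      by_cases h1 : ∀ w ≤ n, R (Nat.pair z w) = 0
      · by_cases h2 : R (Nat.pair z (n + 1)) = 0
        · have h3 : ∀ w ≤ n + 1, R (Nat.pair z w) = 0 := by
            intro w hw
            rcases Nat.lt_or_ge w (n + 1) with h | h
            · exact h1 w (by omega)
            · have : w = n + 1 := by omega
              rw [this, h2]
          rw [if_pos h1, if_pos h3, if_pos rfl, if_pos h2]
        · have h3 : ¬ ∀ w ≤ n + 1, R (Nat.pair z w) = 0 := fun h => h2 (h _ le_rfl)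
          rw [if_pos h1, if_neg h3, if_pos rfl, if_neg h2]
      · have h3 : ¬ ∀ w ≤ n + 1, R (Nat.pair z w) = 0 := fun h => h1 fun w hw => h w (by omega)
        rw [if_neg h1, if_neg h3, if_neg one_ne_zero]
  have e3 : E3 (recF f g) := by
    refine Pool.Agent.Y154.EL.e_rec e1 e2 (Pool.Agent.Y154.EL.e_const 1) fun z n => ?_
    rw [key]
    split_ifs <;> omega
  have e4 := E3.comp (g := fun n => Nat.pair n (b n)) e3
    (E3.pair Pool.Agent.Y154.EL.e_id hb)
  have e5 : (fun n => recF f g (Nat.pair n (b n))) =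
      fun n => if (∀ w ≤ b n, R (Nat.pair n w) = 0) then 0 else 1 := by
    funext n
    exact key _ _
  rw [e5] at e4
  convert e4

/-- test sentences: closed, only the ring operations, the variables `x_0, ..., x_63`, code at
least `B` -/
def Test (B : ℕ) (φ : Fm) : Prop := φ.fv = ∅ ∧ φ.InRing 64 ∧ B ≤ φ.code

/-- the sentence is true in every commutative ring in which `x ^ p + t y ^ p` is an injective
function of `(x, y)` for some `t` -/
def TrueP (p : ℕ) (φ : Fm) : Prop :=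
  ∀ (K : Type) [CommRing K] [Nontrivial K] (O : Set K) (v : ℕ → K),
    (∃ t : K, ∀ x y x' y' : K, x ^ p + t * y ^ p = x' ^ p + t * y' ^ p → x = x' ∧ y = y') →
      Sat O φ v

theorem dec (p : ℕ) (χ : ℕ → ℕ) (hχ : E3 χ) (B : ℕ) : ∃ φ : Fm, Test B φ ∧
    ((χ φ.code = 0 ∧ TrueP p φ) ∨ (χ φ.code ≠ 0 ∧ TrueP p φ.neg)) := by
  obtain ⟨φ, h1, h2, h3, h4⟩ := main p χ hχ B
  refine ⟨φ, ⟨h1, h2, h3⟩, ?_⟩
  rcases h4 with ⟨h4, h5⟩ | ⟨h4, h5⟩
  · left
    exact ⟨h4, fun K _ _ O v hK => h5 K O v hK⟩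
  · right
    exact ⟨h4, fun K _ _ O v hK => h5 K O v hK⟩

/-- programs which accept no sentence whose negation is true in all these rings -/
theorem prog (p : ℕ) (c : Code)
    (hc : ∀ φ : Fm, Test 0 φ → ∀ y ∈ c.eval φ.code, y ≠ 0 → ¬ TrueP p φ.neg) (k B : ℕ) :
    ∃ φ : Fm, Test B φ ∧ TrueP p φ ∧ ∀ y ∈ Code.evaln (tower k φ.code) c φ.code, y = 0 := by
  have h1 : E3 fun n => evn c (Nat.pair (tower k n) n) - 1 :=
    Pool.Agent.Y154.EL.e_pred (E3.comp (f := evn c) (Pool.Agent.Y154.EL.t_EVALN c)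
      (E3.pair (Pool.Agent.Y154.EL.e_tower k) Pool.Agent.Y154.EL.e_id))
  obtain ⟨φ, h2, h3⟩ := dec p _ h1 B
  refine ⟨φ, h2, ?_⟩
  have h0 : Test 0 φ := ⟨h2.1, h2.2.1, Nat.zero_le _⟩
  have h4 : evn c (Nat.pair (tower k φ.code) φ.code) =
      match Code.evaln (tower k φ.code) c φ.code with
      | none => 0
      | some y => y + 1 := by
    unfold evn
    rw [Nat.unpair_pair]
    rfl
  rcases h3 with ⟨h3, h5⟩ | ⟨h3, h5⟩
  · refine ⟨h5, fun y hy => ?_⟩
    rw [Option.mem_def] at hy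
    rw [h4, hy] at h3
    simpa using h3
  · exfalso
    rcases h6 : Code.evaln (tower k φ.code) c φ.code with _ | y
    · rw [h4, h6] at h3
      simp at h3
    · rw [h4, h6] at h3
      refine hc φ h0 y (Code.evaln_sound (Option.mem_def.2 h6)) ?_ h5
      simpa using h3

/-- elementary notions of proof -/
theorem prf (p : ℕ) (R b : ℕ → ℕ) (hR : E3 R) (hb : E3 b)
    (hs : ∀ (φ : Fm) (w : ℕ), Test 0 φ → R (Nat.pair φ.code w) ≠ 0 → ¬ TrueP p φ.neg) (B : ℕ) :
    ∃ φ : Fm, Test B φ ∧ TrueP p φ ∧ ∀ w ≤ b φ.code, R (Nat.pair φ.code w) = 0 := by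
  obtain ⟨φ, h2, h3⟩ := dec p _ (e_search hR hb) B
  refine ⟨φ, h2, ?_⟩
  have h0 : Test 0 φ := ⟨h2.1, h2.2.1, Nat.zero_le _⟩
  rcases h3 with ⟨h3, h5⟩ | ⟨h3, h5⟩
  · refine ⟨h5, ?_⟩
    by_contra h6
    rw [if_neg h6] at h3
    exact one_ne_zero h3
  · exfalso
    apply h3
    rw [if_pos]
    intro w hw
    by_contra h6
    exact hs φ w h0 h6 h5

end Pool.Agent.Y924.EL
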