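import Pool.Agent.Y924.EL.Sem

/-! # Meaning of the templates of the levels -/

set_option autoImplicit false

namespace Pool.Agent.Y924.EL

open Function

section

variable {K : Type} [CommRing K] {O : Set K} {t : K} {h : Fin 5 → Fm} {M : Lev K} {v : ℕ → K}

lemma upd_ne {v : ℕ → K} {i j : ℕ} {x : K} (hij : i ≠ j) : update v j x i = v i :=
  update_of_ne hij _ _

lemma sat_cD (hR : Rep O t h M) (hv : v 3 = t) {a : ℕ} (ha : 10 ≤ a) :
    Sat O ((Tp.cD a).inst h) v ↔ M.D (v a) := by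
  rw [Tp.cD, sat_call1 O h v _ (by omega), sat_hole]
  rw [(hR _ (by rw [upd_ne (by norm_num), hv])).1, update_self]

lemma sat_cL (hR : Rep O t h M) (hv : v 3 = t) {a b : ℕ} (ha : 10 ≤ a) (hb : 10 ≤ b) :
    Sat O ((Tp.cL a b).inst h) v ↔ M.L (v a) (v b) := by
  rw [Tp.cL, sat_call2 O h v _ (by omega) (by omega) (by omega), sat_hole]
  rw [(hR _ (by rw [upd_ne (by norm_num), upd_ne (by norm_num), hv])).2.1, update_self,
    upd_ne (by norm_num), update_self]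

lemma sat_cE (hR : Rep O t h M) (hv : v 3 = t) {a b c : ℕ} (ha : 10 ≤ a) (hb : 10 ≤ b)
    (hc : 10 ≤ c) : Sat O ((Tp.cE a b c).inst h) v ↔ M.E (v a) (v b) (v c) := by
  rw [Tp.cE, sat_call3 O h v _ (by omega) (by omega) (by omega) (by omega) (by omega) (by omega),
    sat_hole]
  rw [(hR _ (by rw [upd_ne (by norm_num), upd_ne (by norm_num), upd_ne (by norm_num), hv])).2.2,
    update_self, upd_ne (by norm_num), upd_ne (by norm_num), update_self, upd_ne (by norm_num),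
    update_self]

lemma sat_cJ {p : ℕ} (hv : v 3 = t) {a b c : ℕ} (ha : 10 ≤ a) (hb : 10 ≤ b)
    (hc : 10 ≤ c) : Sat O ((Tp.cJ p a b c).inst h) v ↔ JJ p t (v a) (v b) = v c := by
  rw [Tp.cJ, sat_call3 O h v _ (by omega) (by omega) (by omega) (by omega) (by omega) (by omega),
    sat_atom, sat_JF]
  rw [upd_ne (by norm_num), upd_ne (by norm_num), upd_ne (by norm_num), hv,
    update_self, upd_ne (by norm_num), upd_ne (by norm_num), update_self, upd_ne (by norm_num),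
    update_self]

lemma sat_cE0 (hR : Rep O t h M) (hv : v 3 = t) {a b : ℕ} (ha : 10 ≤ a) (hb : 10 ≤ b)
    (ha' : a ≠ 29) (hb' : b ≠ 29) :
    Sat O ((Tp.cE0 a b).inst h) v ↔ M.E (v a) (v b) 0 := by
  simp only [Tp.cE0, sat_ex, sat_and, sat_isZ, update_self]
  constructor
  · rintro ⟨x, rfl, hx⟩
    rw [sat_cE hR (by rw [upd_ne (by norm_num), hv]) ha hb (by norm_num), upd_ne ha', upd_ne hb',
      update_self] at hx
    exact hx
  · intro hx
    refine ⟨0, rfl, ?_⟩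
    rw [sat_cE hR (by rw [upd_ne (by norm_num), hv]) ha hb (by norm_num), upd_ne ha', upd_ne hb',
      update_self]
    exact hx

lemma sat_cE1 (hR : Rep O t h M) (hv : v 3 = t) {a b : ℕ} (ha : 10 ≤ a) (hb : 10 ≤ b)
    (ha' : a ≠ 29) (hb' : b ≠ 29) :
    Sat O ((Tp.cE1 a b).inst h) v ↔ M.E (v a) (v b) 1 := by
  simp only [Tp.cE1, sat_ex, sat_and, sat_isO, update_self]
  constructor
  · rintro ⟨x, rfl, hx⟩
    rw [sat_cE hR (by rw [upd_ne (by norm_num), hv]) ha hb (by norm_num), upd_ne ha', upd_ne hb',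
      update_self] at hx
    exact hx
  · intro hx
    refine ⟨1, rfl, ?_⟩
    rw [sat_cE hR (by rw [upd_ne (by norm_num), hv]) ha hb (by norm_num), upd_ne ha', upd_ne hb',
      update_self]
    exact hx

lemma sat_cFst (hR : Rep O t h M) (hv : v 3 = t) {a : ℕ} (ha : 10 ≤ a) (ha' : a ≠ 18) :
    Sat O ((Tp.cFst a).inst h) v ↔ Fst M (v a) := by
  have hu : ∀ x : K, update v 18 x 3 = t := fun x => by rw [upd_ne (by norm_num), hv]
  simp only [Tp.cFst, sat_and, sat_neg, sat_ex, sat_cD hR hv ha, Fst]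
  simp only [sat_cD hR (hu _) (by norm_num : 10 ≤ 18), sat_cL hR (hu _) (by norm_num : 10 ≤ 18) ha,
    update_self, upd_ne ha']

lemma sat_cLst (hR : Rep O t h M) (hv : v 3 = t) {a : ℕ} (ha : 10 ≤ a) (ha' : a ≠ 18) :
    Sat O ((Tp.cLst a).inst h) v ↔ Lst M (v a) := by
  have hu : ∀ x : K, update v 18 x 3 = t := fun x => by rw [upd_ne (by norm_num), hv]
  simp only [Tp.cLst, sat_and, sat_neg, sat_ex, sat_cD hR hv ha, Lst]
  simp only [sat_cD hR (hu _) (by norm_num : 10 ≤ 18), sat_cL hR (hu _) ha (by norm_num : 10 ≤ 18),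
    update_self, upd_ne ha']

lemma sat_cSuc (hR : Rep O t h M) (hv : v 3 = t) {a b : ℕ} (ha : 10 ≤ a) (hb : 10 ≤ b)
    (ha' : a ≠ 18) (hb' : b ≠ 18) :
    Sat O ((Tp.cSuc a b).inst h) v ↔ Suc M (v a) (v b) := by
  have hu : ∀ x : K, update v 18 x 3 = t := fun x => by rw [upd_ne (by norm_num), hv]
  simp only [Tp.cSuc, sat_and, sat_neg, sat_ex, sat_cD hR hv ha, sat_cD hR hv hb,
    sat_cL hR hv ha hb, Suc]
  simp only [sat_cD hR (hu _) (by norm_num : 10 ≤ 18), sat_cL hR (hu _) ha (by norm_num : 10 ≤ 18),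
    sat_cL hR (hu _) (by norm_num : 10 ≤ 18) hb, update_self, upd_ne ha', upd_ne hb']

lemma sat_cCh {p : ℕ} (hR : Rep O t h M) (hv : v 3 = t) {a i x y : ℕ} (ha : 10 ≤ a) (hi : 10 ≤ i)
    (hx : 10 ≤ x) (hy : 10 ≤ y) (ha' : a ≠ 19) (hi' : i ≠ 19) (hx' : x ≠ 19) (hy' : y ≠ 19)
    (ha2 : a ≠ 29) (hi2 : i ≠ 29) :
    Sat O ((Tp.cCh p a i x y).inst h) v ↔ Ch M (JJ p t) 0 1 (v a) (v i) (v x) (v y) := by
  have hu : ∀ x : K, update v 19 x 3 = t := fun x => by rw [upd_ne (by norm_num), hv]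
  simp only [Tp.cCh, sat_ex, sat_or, sat_and, Ch]
  simp only [sat_cE0 hR (hu _) ha hi ha2 hi2, sat_cE1 hR (hu _) ha hi ha2 hi2,
    sat_cJ (hu _) hy (by norm_num : 10 ≤ 19) hx, sat_cJ (hu _) (by norm_num : 10 ≤ 19) hy hx,
    update_self, upd_ne ha', upd_ne hi', upd_ne hx', upd_ne hy']

end

end Pool.Agent.Y924.EL
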