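import Pool.Agent.Y924.EL.Sem2

/-! # Meaning of the templates of the levels, continued -/

set_option autoImplicit false

namespace Pool.Agent.Y924.EL

open Function

theorem t_SEM0 : S_SEM0 := by
  intro K _ O p t v hv
  refine ⟨?_, ?_, ?_⟩
  · show Sat O (Tp.D0.inst fun _ => .one 0) v ↔ _
    simp [Tp.D0, sat_arg1, lev0]
  · show Sat O (Tp.L0.inst fun _ => .one 0) v ↔ _
    simp [Tp.L0, sat_arg2, lev0, update_apply]
  · show Sat O ((Tp.E0 p).inst fun _ => .one 0) v ↔ _
    simp only [Tp.E0, sat_arg3, sat_or, sat_and, sat_ex, sat_isZ, sat_isO, lev0]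
    have h1 : ∀ x, update (update (update (update v 10 (v 0)) 11 (v 1)) 12 (v 2)) 13 x 3 = t := by
      intro x
      simp [update_apply, hv]
    simp only [sat_cJ (h1 _) (by norm_num : 10 ≤ 12) (by norm_num : 10 ≤ 13)
      (by norm_num : 10 ≤ 10), sat_cJ (h1 _) (by norm_num : 10 ≤ 13) (by norm_num : 10 ≤ 12)
      (by norm_num : 10 ≤ 10)]
    simp [update_apply]

theorem t_SEM1 : S_SEM1 := by
  intro K _ O p t h M hR v hv
  refine ⟨?_, ?_, ?_⟩
  · show Sat O (Tp.D1.inst h) v ↔ _
    simp only [Tp.D1, sat_arg1, sat_all, sat_imp, sat_or, nextLev]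
    refine forall_congr' fun i => ?_
    have h1 : update (update v 10 (v 0)) 11 i 3 = t := by simp [update_apply, hv]
    rw [sat_cD hR h1 (by norm_num), sat_cE0 hR h1 (by norm_num) (by norm_num) (by norm_num)
      (by norm_num), sat_cE1 hR h1 (by norm_num) (by norm_num) (by norm_num) (by norm_num)]
    simp [update_apply]
  · show Sat O (Tp.L1.inst h) v ↔ _
    simp only [Tp.L1, sat_arg2, sat_all, sat_imp, sat_or, sat_ex, sat_and, nextLev]
    refine exists_congr fun i => ?_
    have h1 : update (update (update v 10 (v 0)) 11 (v 1)) 12 i 3 = t := by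
      simp [update_apply, hv]
    have h2 : ∀ j, update (update (update (update v 10 (v 0)) 11 (v 1)) 12 i) 13 j 3 = t := by
      intro j
      simp [update_apply, hv]
    rw [sat_cD hR h1 (by norm_num), sat_cE0 hR h1 (by norm_num) (by norm_num) (by norm_num)
      (by norm_num), sat_cE1 hR h1 (by norm_num) (by norm_num) (by norm_num) (by norm_num)]
    refine and_congr (by simp) (and_congr (by simp [update_apply]) (and_congr
      (by simp [update_apply]) (forall_congr' fun j => ?_)))
    rw [sat_cD hR (h2 j) (by norm_num), sat_cL hR (h2 j) (by norm_num) (by norm_num),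
      sat_cE0 hR (h2 j) (by norm_num) (by norm_num) (by norm_num) (by norm_num),
      sat_cE0 hR (h2 j) (by norm_num) (by norm_num) (by norm_num) (by norm_num),
      sat_cE1 hR (h2 j) (by norm_num) (by norm_num) (by norm_num) (by norm_num),
      sat_cE1 hR (h2 j) (by norm_num) (by norm_num) (by norm_num) (by norm_num)]
    simp [update_apply]
  · show Sat O ((Tp.E1 p).inst h) v ↔ _
    simp only [Tp.E1, sat_arg3, sat_all, sat_imp, sat_or, sat_ex, sat_and, nextLev]
    refine exists_congr fun w => ?_
    refine and_congr (forall_congr' fun i => ?_) (and_congr (forall_congr' fun i =>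
      forall_congr' fun j => ?_) (forall_congr' fun i => ?_))
    · have h1 : update (update (update (update (update v 10 (v 0)) 11 (v 1)) 12 (v 2)) 13 w)
        14 i 3 = t := by simp [update_apply, hv]
      rw [sat_cFst hR h1 (by norm_num) (by norm_num), sat_cE hR h1 (by norm_num) (by norm_num)
        (by norm_num)]
      simp [update_apply]
    · have h1 : update (update (update (update (update (update v 10 (v 0)) 11 (v 1)) 12 (v 2)) 13 w)
        14 i) 15 j 3 = t := by simp [update_apply, hv]
      have h2 : ∀ x y, update (update (update (update (update (update (update (update v 10 (v 0))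
        11 (v 1)) 12 (v 2)) 13 w) 14 i) 15 j) 16 x) 17 y 3 = t := by
        intro x y
        simp [update_apply, hv]
      rw [sat_cSuc hR h1 (by norm_num) (by norm_num) (by norm_num) (by norm_num)]
      refine imp_congr (by simp [update_apply]) (exists_congr fun x => exists_congr fun y => ?_)
      rw [sat_cE hR (h2 x y) (by norm_num) (by norm_num) (by norm_num),
        sat_cE hR (h2 x y) (by norm_num) (by norm_num) (by norm_num),
        sat_cCh hR (h2 x y) (by norm_num) (by norm_num) (by norm_num) (by norm_num)
          (by norm_num) (by norm_num) (by norm_num) (by norm_num) (by norm_num) (by norm_num)]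
      simp [update_apply]
    · have h1 : update (update (update (update (update v 10 (v 0)) 11 (v 1)) 12 (v 2)) 13 w)
        14 i 3 = t := by simp [update_apply, hv]
      have h2 : ∀ x, update (update (update (update (update (update v 10 (v 0)) 11 (v 1)) 12 (v 2))
        13 w) 14 i) 16 x 3 = t := by
        intro x
        simp [update_apply, hv]
      rw [sat_cLst hR h1 (by norm_num) (by norm_num)]
      refine imp_congr (by simp [update_apply]) (exists_congr fun x => ?_)
      rw [sat_cE hR (h2 x) (by norm_num) (by norm_num) (by norm_num),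
        sat_cCh hR (h2 x) (by norm_num) (by norm_num) (by norm_num) (by norm_num)
          (by norm_num) (by norm_num) (by norm_num) (by norm_num) (by norm_num) (by norm_num)]
      simp [update_apply]

end Pool.Agent.Y924.EL
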