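import Pool.Agent.Y924.EL.Sem3

/-! # Meaning of the pairing relation and of the numbers -/

set_option autoImplicit false

namespace Pool.Agent.Y924.EL

open Function

section

variable {K : Type} [CommRing K] {O : Set K} {t : K} {h : Fin 5 → Fm} {M : Lev K} {v : ℕ → K}

lemma sat_cNxt (hR : Rep O t h M) (hv : v 3 = t) {x y x' y' : ℕ} (hx : 20 ≤ x) (hy : 20 ≤ y)
    (hx' : 20 ≤ x') (hy' : 20 ≤ y') :
    Sat O ((Tp.cNxt x y x' y').inst h) v ↔ Nxt M (v x) (v y) (v x') (v y') := by
  have hu : ∀ u : K, update v 19 u 3 = t := fun u => by rw [upd_ne (by norm_num), hv]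
  have e1 : x ≠ 19 := by omega
  have e2 : y ≠ 19 := by omega
  have e3 : x' ≠ 19 := by omega
  have e4 : y' ≠ 19 := by omega
  simp only [Tp.cNxt, sat_or, sat_and, sat_ex, sat_eqv, Nxt]
  rw [sat_cSuc hR hv (by omega) (by omega) (by omega) (by omega),
    sat_cFst hR hv (by omega) (by omega), sat_cL hR hv (by omega) (by omega),
    sat_cSuc hR hv (by omega) (by omega) (by omega) (by omega),
    sat_cFst hR hv (by omega) (by omega),
    sat_cSuc hR hv (by omega) (by omega) (by omega) (by omega)]
  refine or_congr (exists_congr fun u => ?_) Iff.rfl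
  rw [sat_cSuc hR (hu u) (by omega) (by norm_num) (by omega) (by norm_num),
    sat_cL hR (hu u) (by norm_num) (by omega), update_self, upd_ne e1, upd_ne e2, upd_ne e3,
    upd_ne e4]

lemma sat_P1 (hR : Rep O t h M) (hv : v 3 = t) :
    Sat O (Tp.P1.inst h) v ↔ PairR M (v 0) (v 1) (v 2) := by
  simp only [Tp.P1, sat_arg3, sat_and, sat_ex, sat_all, sat_imp, PairR]
  have h0 : update (update (update v 10 (v 0)) 11 (v 1)) 12 (v 2) 3 = t := by simp [hv]
  refine and_congr ?_ (exists_congr fun s => exists_congr fun r => and_congr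
    (forall_congr' fun i => ?_) (and_congr (forall_congr' fun i => forall_congr' fun j => ?_) ?_))
  · rw [sat_cD hR h0 (by norm_num)]
    simp
  · have h1 : update (update (update (update (update (update v 10 (v 0)) 11 (v 1)) 12 (v 2)) 13 s)
      14 r) 15 i 3 = t := by simp [hv]
    rw [sat_cFst hR h1 (by norm_num) (by norm_num),
      sat_cE hR h1 (by norm_num) (by norm_num) (by norm_num),
      sat_cE hR h1 (by norm_num) (by norm_num) (by norm_num)]
    simp
  · have h1 : update (update (update (update (update (update (update v 10 (v 0)) 11 (v 1)) 12 (v 2))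
      13 s) 14 r) 15 i) 16 j 3 = t := by simp [hv]
    rw [sat_cSuc hR h1 (by norm_num) (by norm_num) (by norm_num) (by norm_num)]
    refine imp_congr (by simp) (exists_congr fun x => exists_congr fun y =>
      exists_congr fun x' => exists_congr fun y' => ?_)
    have h2 : update (update (update (update (update (update (update (update (update (update
      (update v 10 (v 0)) 11 (v 1)) 12 (v 2)) 13 s) 14 r) 15 i) 16 j) 20 x) 21 y) 22 x') 23 y' 3
        = t := by simp [hv]
    rw [sat_cE hR h2 (by norm_num) (by norm_num) (by norm_num),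
      sat_cE hR h2 (by norm_num) (by norm_num) (by norm_num),
      sat_cE hR h2 (by norm_num) (by norm_num) (by norm_num),
      sat_cE hR h2 (by norm_num) (by norm_num) (by norm_num),
      sat_cNxt hR h2 (by norm_num) (by norm_num) (by norm_num) (by norm_num)]
    simp
  · have h1 : update (update (update (update (update v 10 (v 0)) 11 (v 1)) 12 (v 2)) 13 s)
      14 r 3 = t := by simp [hv]
    rw [sat_cE hR h1 (by norm_num) (by norm_num) (by norm_num),
      sat_cE hR h1 (by norm_num) (by norm_num) (by norm_num)]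
    simp

end

theorem t_SEMA0 : S_SEMA0 := by
  intro K _ O t h M hR
  refine ⟨fun v hv => hR v hv, fun v hv => ⟨?_, ?_⟩⟩
  · show Sat O (Tp.A0.inst h) v ↔ _
    have h0 : update v 10 (v 0) 3 = t := by simp [hv]
    rw [Tp.A0, sat_arg1, sat_cFst hR h0 (by norm_num) (by norm_num)]
    simp [Num]
  · exact sat_P1 hR hv

theorem t_SEMA1 : S_SEMA1 := by
  intro K _ O t h M k hR hR2
  refine ⟨fun v hv => hR v hv, fun v hv => ⟨?_, (hR2 v hv).2⟩⟩
  show Sat O (Tp.A1.inst h) v ↔ _
  simp only [Tp.A1, sat_arg1, sat_ex, sat_and, Num]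
  refine exists_congr fun x => ?_
  have h0 : update (update v 10 (v 0)) 11 x 3 = t := by simp [hv]
  rw [Tp.cA, sat_call1 O h _ _ (by norm_num), sat_hole, (hR2 _ (by simp [hv])).1,
    sat_cSuc hR h0 (by norm_num) (by norm_num) (by norm_num) (by norm_num)]
  simp

end Pool.Agent.Y924.EL
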