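import Pool.Agent.Y924.EL.Sem4

/-! # Meaning of the universal predicate and of the sentence -/

set_option autoImplicit false

namespace Pool.Agent.Y924.EL

open Function

section

variable {K : Type} [CommRing K] {O : Set K} {t : K} {h : Fin 5 → Fm} {M : Lev K} {v : ℕ → K}
  {k0 : ℕ}

lemma sat_cP (hR2 : Rep2 O t h M k0) (hv : v 3 = t) {a b c : ℕ} (ha : 10 ≤ a) (hb : 10 ≤ b)
    (hc : 10 ≤ c) : Sat O ((Tp.cP a b c).inst h) v ↔ PairR M (v a) (v b) (v c) := by
  rw [Tp.cP, sat_call3 O h v _ (by omega) (by omega) (by omega) (by omega) (by omega) (by omega),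
    sat_hole]
  rw [(hR2 _ (by rw [upd_ne (by norm_num), upd_ne (by norm_num), upd_ne (by norm_num), hv])).2,
    update_self, upd_ne (by norm_num), upd_ne (by norm_num), update_self, upd_ne (by norm_num),
    update_self]

lemma sat_cA (hR2 : Rep2 O t h M k0) (hv : v 3 = t) {a : ℕ} (ha : 10 ≤ a) :
    Sat O ((Tp.cA a).inst h) v ↔ Num M k0 (v a) := by
  rw [Tp.cA, sat_call1 O h v _ (by omega), sat_hole,
    (hR2 _ (by rw [upd_ne (by norm_num), hv])).1, update_self]

lemma sat_cNum (hR : Rep O t h M) (k : ℕ) : ∀ (v : ℕ → K) (_ : v 3 = t) {a : ℕ} (_ : 10 ≤ a)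
    (_ : a ≠ 18) (_ : a ≠ 30), Sat O ((Tp.cNum k a).inst h) v ↔ Num M k (v a) := by
  induction k with
  | zero =>
    intro v hv a ha ha1 _
    exact sat_cFst hR hv ha ha1
  | succ k ih =>
    intro v hv a ha ha1 ha2
    simp only [Tp.cNum, sat_ex, sat_and, sat_eqv, Num, update_self, upd_ne ha2]
    have h1 : ∀ x y z : K, update (update (update v 30 x) 31 y) 32 z 3 = t := by
      intro x y z
      simp [hv]
    have h2 : ∀ x y : K, update (update v 30 x) 31 y 3 = t := by
      intro x y
      simp [hv]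
    constructor
    · rintro ⟨x, rfl, y, ⟨z, hz, hz2⟩, hy⟩
      rw [ih _ (h1 _ _ _) (by norm_num) (by norm_num) (by norm_num)] at hz2
      rw [sat_cSuc hR (h2 _ _) (by norm_num) (by norm_num) (by norm_num) (by norm_num)] at hy
      simp at hz hz2 hy
      subst hz
      exact ⟨z, hz2, hy⟩
    · rintro ⟨y, hy, hy2⟩
      refine ⟨v a, rfl, y, ⟨y, by simp, ?_⟩, ?_⟩
      · rw [ih _ (h1 _ _ _) (by norm_num) (by norm_num) (by norm_num)]
        simpa using hy
      · rw [sat_cSuc hR (h2 _ _) (by norm_num) (by norm_num) (by norm_num) (by norm_num)]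
        simpa using hy2

lemma sat_cMem (hR : Rep O t h M) (hR2 : Rep2 O t h M k0) (hv : v 3 = t) {w c x y : ℕ}
    (hw : 10 ≤ w) (hc : 10 ≤ c) (hx : 10 ≤ x) (hy : 10 ≤ y)
    (w1 : w ≠ 27) (w2 : w ≠ 28) (w3 : w ≠ 29) (c1 : c ≠ 27) (c2 : c ≠ 28) (x1 : x ≠ 27)
    (x2 : x ≠ 28) (y1 : y ≠ 27) (y2 : y ≠ 28) :
    Sat O ((Tp.cMem w c x y).inst h) v ↔ Mem M 1 (v w) (v c) (v x) (v y) := by
  simp only [Tp.cMem, sat_ex, sat_and, Mem]
  refine exists_congr fun q => exists_congr fun s => ?_
  have h1 : update (update v 27 q) 28 s 3 = t := by simp [hv]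
  rw [sat_cP hR2 h1 hx hy (by norm_num), sat_cP hR2 h1 hc (by norm_num) (by norm_num),
    sat_cE1 hR h1 hw (by norm_num) w3 (by norm_num)]
  have e : (27 : ℕ) ≠ 28 := by norm_num
  simp only [update_self, upd_ne w2, upd_ne w1, upd_ne x2, upd_ne x1, upd_ne y2, upd_ne y1,
    upd_ne c2, upd_ne c1, upd_ne e]

/-- the variables of `cJust` -/
lemma sat_cRec (hR : Rep O t h M) (hR2 : Rep2 O t h M k0) (hv : v 3 = t) :
    Sat O (Tp.cRec.inst h) v ↔ ∃ z n, PairR M z n (v 42) ∧ ((Fst M n ∧ Mem M 1 (v 13) (v 46) z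
      (v 43)) ∨ ∃ k i xk q2 x2, Suc M k n ∧ PairR M z k xk ∧ Mem M 1 (v 13) (v 40) xk i ∧
        PairR M k i q2 ∧ PairR M z q2 x2 ∧ Mem M 1 (v 13) (v 47) x2 (v 43)) := by
  simp only [Tp.cRec, sat_ex, sat_and, sat_or]
  refine exists_congr fun z => exists_congr fun n => ?_
  have h1 : update (update v 48 z) 49 n 3 = t := by simp [hv]
  rw [sat_cP hR2 h1 (by norm_num) (by norm_num) (by norm_num),
    sat_cFst hR h1 (by norm_num) (by norm_num),
    sat_cMem hR hR2 h1 (by norm_num) (by norm_num) (by norm_num) (by norm_num) (by norm_num)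
      (by norm_num) (by norm_num) (by norm_num) (by norm_num) (by norm_num) (by norm_num)
      (by norm_num) (by norm_num)]
  refine and_congr (by simp) (or_congr (by simp) (exists_congr fun k => exists_congr fun i =>
    exists_congr fun xk => exists_congr fun q2 => exists_congr fun x2 => ?_))
  have h2 : update (update (update (update (update (update (update v 48 z) 49 n) 50 k) 51 i) 52 xk)
    53 q2) 54 x2 3 = t := by simp [hv]
  rw [sat_cSuc hR h2 (by norm_num) (by norm_num) (by norm_num) (by norm_num),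
    sat_cP hR2 h2 (by norm_num) (by norm_num) (by norm_num),
    sat_cP hR2 h2 (by norm_num) (by norm_num) (by norm_num),
    sat_cP hR2 h2 (by norm_num) (by norm_num) (by norm_num),
    sat_cMem hR hR2 h2 (by norm_num) (by norm_num) (by norm_num) (by norm_num) (by norm_num)
      (by norm_num) (by norm_num) (by norm_num) (by norm_num) (by norm_num) (by norm_num)
      (by norm_num) (by norm_num),
    sat_cMem hR hR2 h2 (by norm_num) (by norm_num) (by norm_num) (by norm_num) (by norm_num)
      (by norm_num) (by norm_num) (by norm_num) (by norm_num) (by norm_num) (by norm_num)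
      (by norm_num) (by norm_num)]
  simp

lemma sat_cCases (hR : Rep O t h M) (hR2 : Rep2 O t h M k0) (hv : v 3 = t) :
    Sat O (Tp.cCases.inst h) v ↔
    ((Num M 0 (v 44) ∧ Fst M (v 43)) ∨ (Num M 1 (v 44) ∧ Suc M (v 42) (v 43)) ∨
      (Num M 2 (v 44) ∧ ∃ u, PairR M (v 43) u (v 42)) ∨
      (Num M 3 (v 44) ∧ ∃ u, PairR M u (v 43) (v 42)) ∨
      (Num M 4 (v 44) ∧ ∃ a b, Mem M 1 (v 13) (v 46) (v 42) a ∧ Mem M 1 (v 13) (v 47) (v 42) b ∧
        PairR M a b (v 43)) ∨
      (Num M 5 (v 44) ∧ ∃ a, Mem M 1 (v 13) (v 47) (v 42) a ∧ Mem M 1 (v 13) (v 46) a (v 43)) ∨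
      (Num M 6 (v 44) ∧ ∃ z n, PairR M z n (v 42) ∧ ((Fst M n ∧ Mem M 1 (v 13) (v 46) z
      (v 43)) ∨ ∃ k i xk q2 x2, Suc M k n ∧ PairR M z k xk ∧ Mem M 1 (v 13) (v 40) xk i ∧
        PairR M k i q2 ∧ PairR M z q2 x2 ∧ Mem M 1 (v 13) (v 47) x2 (v 43)))) := by
  simp only [Tp.cCases, sat_or, sat_and, sat_ex]
  rw [sat_cNum hR 0 v hv (by norm_num) (by norm_num) (by norm_num),
    sat_cNum hR 1 v hv (by norm_num) (by norm_num) (by norm_num),
    sat_cNum hR 2 v hv (by norm_num) (by norm_num) (by norm_num),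
    sat_cNum hR 3 v hv (by norm_num) (by norm_num) (by norm_num),
    sat_cNum hR 4 v hv (by norm_num) (by norm_num) (by norm_num),
    sat_cNum hR 5 v hv (by norm_num) (by norm_num) (by norm_num),
    sat_cNum hR 6 v hv (by norm_num) (by norm_num) (by norm_num),
    sat_cFst hR hv (by norm_num) (by norm_num),
    sat_cSuc hR hv (by norm_num) (by norm_num) (by norm_num) (by norm_num),
    sat_cRec hR hR2 hv]
  have h1 : ∀ x : K, update v 48 x 3 = t := fun x => by simp [hv]
  have h2 : ∀ x y : K, update (update v 48 x) 49 y 3 = t := fun x y => by simp [hv]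
  refine or_congr Iff.rfl (or_congr Iff.rfl (or_congr (and_congr Iff.rfl
    (exists_congr fun u => ?_)) (or_congr (and_congr Iff.rfl (exists_congr fun u => ?_))
    (or_congr (and_congr Iff.rfl (exists_congr fun a => exists_congr fun b => ?_))
    (or_congr (and_congr Iff.rfl (exists_congr fun a => ?_)) Iff.rfl)))))
  · rw [sat_cP hR2 (h1 _) (by norm_num) (by norm_num) (by norm_num)]
    simp
  · rw [sat_cP hR2 (h1 _) (by norm_num) (by norm_num) (by norm_num)]
    simp
  · rw [sat_cMem hR hR2 (h2 _ _) (by norm_num) (by norm_num) (by norm_num) (by norm_num)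
      (by norm_num) (by norm_num) (by norm_num) (by norm_num) (by norm_num) (by norm_num)
      (by norm_num) (by norm_num) (by norm_num),
      sat_cMem hR hR2 (h2 _ _) (by norm_num) (by norm_num) (by norm_num) (by norm_num)
      (by norm_num) (by norm_num) (by norm_num) (by norm_num) (by norm_num) (by norm_num)
      (by norm_num) (by norm_num) (by norm_num),
      sat_cP hR2 (h2 _ _) (by norm_num) (by norm_num) (by norm_num)]
    simp
  · rw [sat_cMem hR hR2 (h1 _) (by norm_num) (by norm_num) (by norm_num) (by norm_num)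
      (by norm_num) (by norm_num) (by norm_num) (by norm_num) (by norm_num) (by norm_num)
      (by norm_num) (by norm_num) (by norm_num),
      sat_cMem hR hR2 (h1 _) (by norm_num) (by norm_num) (by norm_num) (by norm_num)
      (by norm_num) (by norm_num) (by norm_num) (by norm_num) (by norm_num) (by norm_num)
      (by norm_num) (by norm_num) (by norm_num)]
    simp

lemma sat_cJust (hR : Rep O t h M) (hR2 : Rep2 O t h M k0) (hv : v 3 = t) :
    Sat O (Tp.cJust.inst h) v ↔ JustR M 1 (v 13) (v 14) := by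
  simp only [Tp.cJust, sat_ex, sat_and, JustR]
  refine exists_congr fun c => exists_congr fun q => exists_congr fun x => exists_congr fun y =>
    exists_congr fun g => exists_congr fun c' => exists_congr fun c1 => exists_congr fun c2 => ?_
  have h1 : update (update (update (update (update (update (update (update v 40 c) 41 q) 42 x) 43 y)
    44 g) 45 c') 46 c1) 47 c2 3 = t := by simp [hv]
  rw [sat_cP hR2 h1 (by norm_num) (by norm_num) (by norm_num),
    sat_cP hR2 h1 (by norm_num) (by norm_num) (by norm_num),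
    sat_cP hR2 h1 (by norm_num) (by norm_num) (by norm_num),
    sat_cP hR2 h1 (by norm_num) (by norm_num) (by norm_num), sat_cCases hR hR2 h1]
  simp

lemma sat_cUni (hR : Rep O t h M) (hR2 : Rep2 O t h M k0) (hv : v 3 = t) :
    Sat O (Tp.cUni.inst h) v ↔ Uni M 1 (v 10) (v 11) (v 12) := by
  simp only [Tp.cUni, sat_ex, sat_and, sat_all, sat_imp, Uni]
  refine exists_congr fun w => ?_
  have h1 : update v 13 w 3 = t := by simp [hv]
  have h2 : ∀ s, update (update v 13 w) 14 s 3 = t := fun s => by simp [hv]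
  rw [sat_cMem hR hR2 h1 (by norm_num) (by norm_num) (by norm_num) (by norm_num)
      (by norm_num) (by norm_num) (by norm_num) (by norm_num) (by norm_num) (by norm_num)
      (by norm_num) (by norm_num) (by norm_num)]
  refine and_congr (forall_congr' fun s => ?_) (by simp)
  rw [sat_cD hR (h2 s) (by norm_num), sat_cE1 hR (h2 s) (by norm_num) (by norm_num)
    (by norm_num) (by norm_num), sat_cJust hR hR2 (h2 s)]
  simp

end

theorem t_SEMB : S_SEMB := by
  intro K _ O t h M k hR hR2 v hv
  simp only [Tp.Body, sat_ex, sat_and]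
  constructor
  · rintro ⟨n, hn, c, r, hc, y, hy, hU⟩
    have h1 : update v 11 n 3 = t := by simp [hv]
    have h2 : update (update (update v 11 n) 10 c) 15 r 3 = t := by simp [hv]
    have h3 : update (update (update (update v 11 n) 10 c) 15 r) 12 y 3 = t := by simp [hv]
    rw [sat_cA hR2 h1 (by norm_num)] at hn
    rw [sat_cP hR2 h2 (by norm_num) (by norm_num) (by norm_num)] at hc
    rw [sat_cNum hR 1 _ h3 (by norm_num) (by norm_num) (by norm_num)] at hy
    rw [sat_cUni hR hR2 h3] at hU
    refine ⟨n, c, r, y, ?_, ?_, ?_, ?_⟩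
    · simpa using hn
    · simpa using hc
    · simpa using hy
    · simpa using hU
  · rintro ⟨n, c, r, y, hn, hc, hy, hU⟩
    have h1 : update v 11 n 3 = t := by simp [hv]
    have h2 : update (update (update v 11 n) 10 c) 15 r 3 = t := by simp [hv]
    have h3 : update (update (update (update v 11 n) 10 c) 15 r) 12 y 3 = t := by simp [hv]
    refine ⟨n, ?_, c, r, ?_, y, ?_, ?_⟩
    · rw [sat_cA hR2 h1 (by norm_num)]
      simpa using hn
    · rw [sat_cP hR2 h2 (by norm_num) (by norm_num) (by norm_num)]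
      simpa using hc
    · rw [sat_cNum hR 1 _ h3 (by norm_num) (by norm_num) (by norm_num)]
      simpa using hy
    · rw [sat_cUni hR hR2 h3]
      simpa using hU

theorem t_SEMI : S_SEMI := by
  intro K _ O p t h v hv
  simp only [Tp.InjT, sat_all, sat_imp, sat_and, sat_eqv, Inj2]
  constructor
  · intro hh x y x' y' he
    have h1 : update (update (update (update (update v 10 x) 11 y) 12 x') 13 y') 14
      (JJ p t x y) 3 = t := by simp [hv]
    have h2 := hh x y x' y' (JJ p t x y)
    rw [sat_cJ h1 (by norm_num) (by norm_num) (by norm_num),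
      sat_cJ h1 (by norm_num) (by norm_num) (by norm_num)] at h2
    simp at h2
    exact h2 he.symm
  · intro hh x y x' y' z
    have h1 : update (update (update (update (update v 10 x) 11 y) 12 x') 13 y') 14
      z 3 = t := by simp [hv]
    rw [sat_cJ h1 (by norm_num) (by norm_num) (by norm_num),
      sat_cJ h1 (by norm_num) (by norm_num) (by norm_num)]
    simp
    intro e1 e2
    exact hh x y x' y' (e1.trans e2.symm)

end Pool.Agent.Y924.EL
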