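import Pool.Agent.Y924.EL.Defs

/-! # Statements of the parts of project EL -/

set_option autoImplicit false

namespace Pool.Agent.Y924.EL

/-! ## Numbers -/

/-- EL-REC: elementary functions have records of computations below a tower -/
def S_REC : Prop := ∀ f : ℕ → ℕ, E3 f → ∃ c k : ℕ, ∀ x : ℕ, ∃ W : Set ℕ,
  Closed W ∧ tr c x (f x) ∈ W ∧ ∀ t ∈ W, t < tower k x

/-- EL-UNIQ: records are correct -/
def S_UNIQ : Prop := ∀ (W W' : Set ℕ) (c x y y' : ℕ), Closed W → Closed W' →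
  tr c x y ∈ W → tr c x y' ∈ W' → y = y'

/-- EL-CODE: the codes of the sentences are an elementary function -/
def S_CODE : Prop := ∀ p : ℕ, E3 (codeOf p)

def S_CODEEQ : Prop := ∀ p m : ℕ, (sent p m).code = codeOf p m

def S_SG : Prop := ∀ f : ℕ → ℕ, E3 f → E3 fun n => if f n = 0 then 1 else 0

/-- EL-TOW: growth of towers -/
def S_TOW : Prop := ∀ c k : ℕ, ∃ j : ℕ, 1 < Nat.pair c j ∧
  tower k (Nat.pair c j) ≤ tower (Nat.pair c j) 2 ∧ Nat.pair c j < tower (Nat.pair c j) 2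

/-! ## Levels -/

/-- injective pairing -/
def Inj2 {K : Type*} (J : K → K → K) : Prop :=
  ∀ x y x' y' : K, J x y = J x' y' → x = x' ∧ y = y'

/-- the levels -/
def levN {K : Type*} (J : K → K → K) (z0 z1 : K) : ℕ → Lev K
  | 0 => lev0 J z0 z1
  | n + 1 => nextLev (levN J z0 z1 n) J z0 z1

/-- EL-LEV0 -/
def S_LEV0 : Prop := ∀ (K : Type) (J : K → K → K) (z0 z1 : K), Inj2 J → z0 ≠ z1 →
  Good (lev0 J z0 z1) 2

/-- EL-ENUM: the domain of the next level is linearly ordered, with `2 ^ N` elements -/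
def S_ENUM : Prop := ∀ (K : Type) (J : K → K → K) (z0 z1 : K) (M : Lev K) (N : ℕ),
  z0 ≠ z1 → Good M N → ∃ e : ℕ → K, Enum (nextLev M J z0 z1) (2 ^ N) e

/-- EL-EVAL: the evaluation relation of the next level -/
def S_EVAL : Prop := ∀ (K : Type) (J : K → K → K) (z0 z1 : K) (M : Lev K) (N : ℕ), Inj2 J →
  z0 ≠ z1 → 1 ≤ N → Good M N →
  (∀ s i v v', (nextLev M J z0 z1).D i → (nextLev M J z0 z1).E s i v →
    (nextLev M J z0 z1).E s i v' → v = v') ∧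
  (∀ φ : K → K, ∃ s, ∀ i, (nextLev M J z0 z1).D i → (nextLev M J z0 z1).E s i (φ i)) ∧
  (∀ s s', (∀ i, (nextLev M J z0 z1).D i →
    ∃ v, (nextLev M J z0 z1).E s i v ∧ (nextLev M J z0 z1).E s' i v) → s = s')

/-- EL-PAIR -/
def S_PAIR : Prop := ∀ (K : Type) (M : Lev K) (N : ℕ) (e : ℕ → K), Good M N → Enum M N e →
  ∀ a b c : K, PairR M a b c ↔
    ∃ i j : ℕ, Nat.pair i j < N ∧ a = e i ∧ b = e j ∧ c = e (Nat.pair i j)

/-- EL-UNI -/
def S_UNI : Prop := ∀ (K : Type) (M : Lev K) (N : ℕ) (e : ℕ → K) (z0 z1 : K), Good M N →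
  Enum M N e → z0 ≠ z1 → ∀ c x y : ℕ, c < N → x < N → y < N →
    (Uni M z1 (e c) (e x) (e y) ↔ ∃ W : Set ℕ, Closed W ∧ tr c x y ∈ W ∧ ∀ t ∈ W, t < N)

/-! ## Meaning of the templates -/

/-- the pairing of a ring -/
def JJ {K : Type} [CommRing K] (p : ℕ) (t : K) (x y : K) : K := x ^ p + t * y ^ p

/-- the first three holes mean the level `M` if `x_3 = t` -/
def Rep {K : Type} [CommRing K] (O : Set K) (t : K) (h : Fin 5 → Fm) (M : Lev K) : Prop :=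
  ∀ v : ℕ → K, v 3 = t → (Sat O (h 0) v ↔ M.D (v 0)) ∧ (Sat O (h 1) v ↔ M.L (v 0) (v 1)) ∧
    (Sat O (h 2) v ↔ M.E (v 0) (v 1) (v 2))

/-- hole 3 means the number `k`, hole 4 the pairing relation -/
def Rep2 {K : Type} [CommRing K] (O : Set K) (t : K) (h : Fin 5 → Fm) (M : Lev K) (k : ℕ) :
    Prop :=
  ∀ v : ℕ → K, v 3 = t → (Sat O (h 3) v ↔ Num M k (v 0)) ∧
    (Sat O (h 4) v ↔ PairR M (v 0) (v 1) (v 2))

def S_SEM0 : Prop := ∀ (K : Type) [CommRing K] (O : Set K) (p : ℕ) (t : K),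
  Rep O t (h0 p) (lev0 (JJ p t) 0 1)

def S_SEM1 : Prop := ∀ (K : Type) [CommRing K] (O : Set K) (p : ℕ) (t : K) (h : Fin 5 → Fm)
  (M : Lev K), Rep O t h M → Rep O t (stepH (TL p) h) (nextLev M (JJ p t) 0 1)

def S_SEMA0 : Prop := ∀ (K : Type) [CommRing K] (O : Set K) (t : K) (h : Fin 5 → Fm)
  (M : Lev K), Rep O t h M → Rep O t (stepH TA0 h) M ∧ Rep2 O t (stepH TA0 h) M 0

def S_SEMA1 : Prop := ∀ (K : Type) [CommRing K] (O : Set K) (t : K) (h : Fin 5 → Fm)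
  (M : Lev K) (k : ℕ), Rep O t h M → Rep2 O t h M k →
  Rep O t (stepH TA1 h) M ∧ Rep2 O t (stepH TA1 h) M (k + 1)

/-- the body of the sentence -/
def S_SEMB : Prop := ∀ (K : Type) [CommRing K] (O : Set K) (t : K) (h : Fin 5 → Fm)
  (M : Lev K) (k : ℕ), Rep O t h M → Rep2 O t h M k → ∀ v : ℕ → K, v 3 = t →
  (Sat O (Tp.Body.inst h) v ↔ ∃ n c r y, Num M k n ∧ PairR M c r n ∧ Num M 1 y ∧
    Uni M 1 c n y)

/-- injectivity of the pairing -/
def S_SEMI : Prop := ∀ (K : Type) [CommRing K] (O : Set K) (p : ℕ) (t : K) (h : Fin 5 → Fm)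
  (v : ℕ → K), v 3 = t → (Sat O ((Tp.InjT p).inst h) v ↔ Inj2 (JJ p t))

/-! ## Syntax -/

/-- EL-FV: the sentences are closed -/
def S_FV : Prop := ∀ p m : ℕ, (sent p m).fv = ∅

/-- EL-RING: the sentences use only 64 variables, and not the valuation -/
def S_RING : Prop := ∀ p m : ℕ, (sent p m).InRing 64

/-! ## Fields -/

/-- EL-INJ -/
def S_INJ : Prop := ∀ (K : Type) [Field K] (p : ℕ) [Fact p.Prime] [CharP K p] (t : K),
  (∀ u : K, u ^ p ≠ t) → Inj2 (JJ p t)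

end Pool.Agent.Y924.EL
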